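import Pool.Agent.V11181.PVC.Sound
set_option autoImplicit false

/-!
A chordal graph on 24 vertices with clique number 3 whose 6-path vertex cover number is at
least 7, whereas the bound `(ω - 1) / (ω + k - 2) * n` would be `48 / 7 < 7`.
-/

namespace Pool.Agent.Results.MP_708c97_co.Counterexample24
open Finset Pool.Agent.V11181.PVC

variable {V : Type*}

/-- Every cycle of length `m ≥ 4` has a chord: an edge joining two vertices of the cycle that
are not consecutive on it. -/
def IsChordal (G : SimpleGraph V) : Prop :=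
  ∀ m : ℕ, 4 ≤ m → ∀ f : ZMod m → V, Function.Injective f → (∀ i, G.Adj (f i) (f (i + 1))) →
    ∃ i j : ZMod m, i ≠ j ∧ j ≠ i + 1 ∧ i ≠ j + 1 ∧ G.Adj (f i) (f j)

/-- `S` meets every path of `G` on `k` vertices. -/
def IsPathCover (G : SimpleGraph V) (k : ℕ) (S : Finset V) : Prop :=
  ∀ f : Fin k → V, Function.Injective f →
    (∀ i j : Fin k, i.val + 1 = j.val → G.Adj (f i) (f j)) → ∃ i, f i ∈ S

/-- The `k`-path vertex cover number. -/
noncomputable def psi (G : SimpleGraph V) (k : ℕ) : ℕ :=
  sInf {m | ∃ S : Finset V, IsPathCover G k S ∧ S.card = m}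

theorem bit_symm : ∀ a b : Fin 24, bit a.val b.val = true → bit b.val a.val = true := by
  decide +kernel

theorem bit_irrefl : ∀ a : Fin 24, bit a.val a.val = false := by
  decide +kernel

theorem peo : ∀ a b c : Fin 24, b < a → c < a → b ≠ c → bit a.val b.val = true →
    bit a.val c.val = true → bit b.val c.val = true := by
  decide +kernel

theorem tri : bit 0 1 = true ∧ bit 0 2 = true ∧ bit 1 2 = true := by
  decide +kernel

/-- The graph. -/
def G24 : SimpleGraph (Fin 24) where
  Adj a b := bit a.val b.val = true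
  symm := ⟨fun a b h => bit_symm a b h⟩
  loopless := ⟨fun a h => by rw [bit_irrefl a] at h; cases h⟩

theorem adj_iff (a b : Fin 24) : G24.Adj a b ↔ bit a.val b.val = true := Iff.rfl

/-- a proper colouring with three colours -/
def col (a : Fin 24) : Fin 3 := ⟨colM / 3 ^ a.val % 3, Nat.mod_lt _ (by norm_num)⟩

theorem col_ok : ∀ a b : Fin 24, bit a.val b.val = true → col a ≠ col b := by
  decide +kernel

theorem chordal : IsChordal G24 := by
  intro m hm f hf hadj
  haveI : NeZero m := ⟨by omega⟩
  haveI : Fact (1 < m) := ⟨by omega⟩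
  obtain ⟨i, -, hi⟩ := exists_max_image (univ : Finset (ZMod m)) (fun i => (f i).val)
    ⟨0, mem_univ 0⟩
  have cast_ne : ∀ t : ℕ, 0 < t → t < m → ((t : ℕ) : ZMod m) ≠ 0 := by
    intro t ht htm h
    rw [ZMod.natCast_eq_zero_iff] at h
    exact absurd (Nat.le_of_dvd ht h) (by omega)
  have h1 : (1 : ZMod m) ≠ 0 := by simpa using cast_ne 1 (by norm_num) (by omega)
  have h2 : (2 : ZMod m) ≠ 0 := by simpa using cast_ne 2 (by norm_num) (by omega)
  have h3 : (3 : ZMod m) ≠ 0 := by simpa using cast_ne 3 (by norm_num) (by omega)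
  have lt_of : ∀ j, j ≠ i → f j < f i := by
    intro j hj
    have hle : (f j).val ≤ (f i).val := hi j (mem_univ _)
    have hne : (f j).val ≠ (f i).val := fun h => hj (hf (Fin.ext h))
    exact Fin.lt_def.2 (lt_of_le_of_ne hle hne)
  have e1 : i - 1 ≠ i := by
    intro h
    apply h1
    have : i - 1 - i = 0 := by rw [h]; ring
    have h' : (1 : ZMod m) = -(i - 1 - i) := by ring
    rw [h', this, neg_zero]
  have e2 : i + 1 ≠ i := by
    intro h
    apply h1
    have : i + 1 - i = 0 := by rw [h]; ring
    have h' : (1 : ZMod m) = i + 1 - i := by ring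
    rw [h', this]
  have e3 : i - 1 ≠ i + 1 := by
    intro h
    apply h2
    have : i + 1 - (i - 1) = 0 := by rw [h]; ring
    have h' : (2 : ZMod m) = i + 1 - (i - 1) := by ring
    rw [h', this]
  have a1 : G24.Adj (f i) (f (i - 1)) := by
    have := hadj (i - 1)
    rw [sub_add_cancel] at this
    exact this.symm
  have a2 : G24.Adj (f i) (f (i + 1)) := hadj i
  refine ⟨i - 1, i + 1, e3, ?_, ?_, ?_⟩
  · intro h
    rw [sub_add_cancel] at h
    exact e2 h
  · intro h
    apply h3
    have : i + 1 + 1 - (i - 1) = 0 := by rw [← h]; ring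
    have h' : (3 : ZMod m) = i + 1 + 1 - (i - 1) := by ring
    rw [h', this]
  · exact peo (f i) (f (i - 1)) (f (i + 1)) (lt_of _ e1) (lt_of _ e2)
      (fun h => e3 (hf h)) a1 a2

theorem cliqueNum_eq : G24.cliqueNum = 3 := by
  apply le_antisymm
  · have hc : G24.Colorable 3 :=
      ⟨SimpleGraph.Coloring.mk col (fun {a b} h => col_ok a b h)⟩
    have hf : G24.CliqueFree 4 := hc.cliqueFree (by norm_num)
    obtain ⟨s, hs⟩ := G24.exists_isNClique_cliqueNum
    by_contra hlt
    push Not at hlt
    exact (hf.mono hlt) s hs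
  · have : G24.IsNClique 3 {0, 1, 2} := by
      rw [SimpleGraph.is3Clique_triple_iff]
      exact tri
    have h := this.isClique.card_le_cliqueNum
    rw [this.card_eq] at h
    exact h

theorem cover_card {T : Finset (Fin 24)} (hT : IsPathCover G24 6 T) : 7 ≤ T.card := by
  by_contra hlt
  push Not at hlt
  refine chk_sound T (by omega) ?_ root 0 0 0 chk_root ?_ ?_ ?_
  · intro c hc
    simp only [isPath, Bool.and_eq_true, Bool.not_eq_true', beq_eq_false_iff_ne] at hc
    obtain ⟨p01, p12, p23, p34, p45, n01, n02, n03, n04, n05, n12, n13, n14, n15, n23, n24,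
      n25, n34, n35, n45⟩ := hc
    have key := hT (fun i : Fin 6 => vf c i.val) ?_ ?_
    · obtain ⟨i, hi⟩ := key
      fin_cases i
      · exact Or.inl hi
      · exact Or.inr (Or.inl hi)
      · exact Or.inr (Or.inr (Or.inl hi))
      · exact Or.inr (Or.inr (Or.inr (Or.inl hi)))
      · exact Or.inr (Or.inr (Or.inr (Or.inr (Or.inl hi))))
      · exact Or.inr (Or.inr (Or.inr (Or.inr (Or.inr hi))))
    · intro i j hij
      have hv : vx c i.val = vx c j.val := congrArg Fin.val hij
      fin_cases i <;> fin_cases j <;> first | rfl | (exfalso; first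
        | exact n01 hv | exact n02 hv | exact n03 hv | exact n04 hv | exact n05 hv
        | exact n12 hv | exact n13 hv | exact n14 hv | exact n15 hv | exact n23 hv
        | exact n24 hv | exact n25 hv | exact n34 hv | exact n35 hv | exact n45 hv
        | exact n01 hv.symm | exact n02 hv.symm | exact n03 hv.symm | exact n04 hv.symm
        | exact n05 hv.symm | exact n12 hv.symm | exact n13 hv.symm | exact n14 hv.symm
        | exact n15 hv.symm | exact n23 hv.symm | exact n24 hv.symm | exact n25 hv.symm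
        | exact n34 hv.symm | exact n35 hv.symm | exact n45 hv.symm)
    · intro i j hij
      rw [adj_iff]
      show bit (vx c i.val) (vx c j.val) = true
      obtain ⟨i, hi⟩ := i
      obtain ⟨j, hj⟩ := j
      simp only at hij
      subst hij
      have : i = 0 ∨ i = 1 ∨ i = 2 ∨ i = 3 ∨ i = 4 := by omega
      rcases this with h | h | h | h | h <;> subst h <;> assumption
  · intro w hw
    rw [mem_bits] at hw
    simp at hw
  · intro w hw
    rw [mem_bits] at hw
    simp at hw
  · rw [card_eq_zero, eq_empty_iff_forall_notMem]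
    intro w hw
    rw [mem_bits] at hw
    simp at hw

theorem seven_le_psi : 7 ≤ psi G24 6 := by
  unfold psi
  have hne : {m | ∃ S : Finset (Fin 24), IsPathCover G24 6 S ∧ S.card = m}.Nonempty :=
    ⟨_, univ, fun f _ _ => ⟨0, mem_univ _⟩, rfl⟩
  obtain ⟨S, hS, hc⟩ := Nat.sInf_mem hne
  rw [← hc]
  exact cover_card hS

theorem result :
    (∃ G : SimpleGraph (Fin 24), IsChordal G ∧ G.cliqueNum = 3 ∧ 7 ≤ psi G 6) ∧
    ¬ (∀ k : ℕ, 3 ≤ k → ∀ (n : ℕ) (G : SimpleGraph (Fin n)), IsChordal G →
        (psi G k : ℝ) ≤ ((G.cliqueNum : ℝ) - 1) / ((G.cliqueNum : ℝ) + (k : ℝ) - 2) * (n : ℝ)) := by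
  refine ⟨⟨G24, chordal, cliqueNum_eq, seven_le_psi⟩, ?_⟩
  intro h
  have h6 := h 6 (by norm_num) 24 G24 chordal
  rw [cliqueNum_eq] at h6
  have h7 : (7 : ℝ) ≤ (psi G24 6 : ℝ) := by exact_mod_cast seven_le_psi
  have := h7.trans h6
  norm_num at this

end Pool.Agent.Results.MP_708c97_co.Counterexample24
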